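import Mathlib

set_option autoImplicit false

/-!
# MP_06c496_co, Q1: every simple polygon can be carried to a regular polygon

The vertices are complex numbers. Moves of two vertices `i`, `j` act on their positions relative to
the centroid `K` of the other vertices by real `2 × 2` matrices; these matrices generate `GL₂(ℝ)`.
-/

namespace Pool.Agent.Results.MP_06c496_co.ReachRegular

open Matrix

/-- The vertex centroid. -/
noncomputable def centroid {n : ℕ} (v : Fin n → ℂ) : ℂ := (∑ i, v i) / n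

/-- A vertex-centroid move: some vertex `v i`, different from the centroid `m`, is replaced by a
point `v i + t (m - v i)`, `t ∈ ℝ`, of the line through `v i` and `m`. -/
def Move {n : ℕ} (v v' : Fin n → ℂ) : Prop :=
  ∃ i, v i ≠ centroid v ∧ ∃ t : ℝ, v' = Function.update v i (v i + t * (centroid v - v i))

/-- A simple polygon: the vertices are distinct and two different edges have at most a common
endpoint in common. -/
def IsSimple {n : ℕ} (v : Fin n → ℂ) : Prop :=
  Function.Injective v ∧ ∀ i j : Fin n, i ≠ j →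
    ∀ p ∈ segment ℝ (v i) (v (finRotate n i)) ∩ segment ℝ (v j) (v (finRotate n j)),
      (p = v i ∨ p = v (finRotate n i)) ∧ (p = v j ∨ p = v (finRotate n j))

/-- A regular polygon, traversed counterclockwise or clockwise: its vertices are
`c + r exp (2 π i k / n)`, `k = 0, ..., n - 1`, or `c + r exp (- 2 π i k / n)`, where `c` is the
centre and `r ≠ 0`. -/
def IsRegular {n : ℕ} (w : Fin n → ℂ) : Prop :=
  ∃ c r : ℂ, r ≠ 0 ∧
    ((∀ k : Fin n, w k = c + r * Complex.exp (2 * Real.pi * Complex.I * k / n)) ∨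
      (∀ k : Fin n, w k = c + r * Complex.exp (-(2 * Real.pi * Complex.I * k / n))))

/-! ### two vertices -/

/-- the determinant of two vectors -/
def dt (x y : ℂ) : ℝ := x.re * y.im - x.im * y.re

/-- the action of a real matrix on a pair of vectors -/
def act (M : Matrix (Fin 2) (Fin 2) ℝ) (x : ℂ × ℂ) : ℂ × ℂ :=
  ((M 0 0 : ℂ) * x.1 + (M 0 1 : ℂ) * x.2, (M 1 0 : ℂ) * x.1 + (M 1 1 : ℂ) * x.2)

theorem dt_act (M : Matrix (Fin 2) (Fin 2) ℝ) (x : ℂ × ℂ) :
    dt (act M x).1 (act M x).2 = M.det * dt x.1 x.2 := by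
  rw [Matrix.det_fin_two]
  simp only [dt, act, Complex.add_re, Complex.add_im, Complex.mul_re, Complex.mul_im,
    Complex.ofReal_re, Complex.ofReal_im]
  ring

theorem act_mul (A B : Matrix (Fin 2) (Fin 2) ℝ) (x : ℂ × ℂ) :
    act (A * B) x = act A (act B x) := by
  simp only [act, Matrix.mul_apply, Fin.sum_univ_two]
  ext
  · push_cast; ring
  · push_cast; ring

theorem act_one (x : ℂ × ℂ) : act 1 x = x := by
  simp [act]

/-- one move of the first or of the second of two vertices, relative to the centroid of the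
others, `a = n - 1` -/
def Step (a : ℝ) (x y : ℂ × ℂ) : Prop :=
  dt x.1 x.2 ≠ 0 ∧ ((∃ s : ℝ, y = (x.1 + s * (a * x.1 - x.2), x.2)) ∨
    (∃ s : ℝ, y = (x.1, x.2 + s * (a * x.2 - x.1))))

/-- the matrices realised by sequences of moves -/
def Good (a : ℝ) (M : Matrix (Fin 2) (Fin 2) ℝ) : Prop :=
  ∀ x : ℂ × ℂ, dt x.1 x.2 ≠ 0 → Relation.ReflTransGen (Step a) x (act M x)

theorem good_mul {a : ℝ} {A B : Matrix (Fin 2) (Fin 2) ℝ} (hB : B.det ≠ 0) (h1 : Good a A)
    (h2 : Good a B) : Good a (A * B) := by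
  intro x hx
  rw [act_mul]
  refine (h2 x hx).trans (h1 _ ?_)
  rw [dt_act]
  exact mul_ne_zero hB hx

/-- the matrix of a move of the first vertex -/
noncomputable def Lm (a l : ℝ) : Matrix (Fin 2) (Fin 2) ℝ := !![l, -(l - 1) / a; 0, 1]

/-- the matrix of a move of the second vertex -/
noncomputable def Rm (a l : ℝ) : Matrix (Fin 2) (Fin 2) ℝ := !![1, 0; -(l - 1) / a, l]

theorem Lm_det (a l : ℝ) : (Lm a l).det = l := by
  simp [Lm, Matrix.det_fin_two]

theorem Rm_det (a l : ℝ) : (Rm a l).det = l := by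
  simp [Rm, Matrix.det_fin_two]

theorem good_L {a : ℝ} (ha : 0 < a) (l : ℝ) : Good a (Lm a l) := by
  intro x hx
  refine Relation.ReflTransGen.single ⟨hx, Or.inl ⟨(l - 1) / a, ?_⟩⟩
  have ha' : (a : ℂ) ≠ 0 := by exact_mod_cast ha.ne'
  ext
  · simp only [act, Lm, Matrix.of_apply, Matrix.cons_val', Matrix.cons_val_zero,
      Matrix.cons_val_one, Matrix.cons_val_fin_one]
    push_cast
    field_simp
    ring
  · simp [act, Lm]

theorem good_R {a : ℝ} (ha : 0 < a) (l : ℝ) : Good a (Rm a l) := by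
  intro x hx
  refine Relation.ReflTransGen.single ⟨hx, Or.inr ⟨(l - 1) / a, ?_⟩⟩
  have ha' : (a : ℂ) ≠ 0 := by exact_mod_cast ha.ne'
  ext
  · simp [act, Rm]
  · simp only [act, Rm, Matrix.of_apply, Matrix.cons_val', Matrix.cons_val_zero,
      Matrix.cons_val_one, Matrix.cons_val_fin_one]
    push_cast
    field_simp
    ring

/-- a transvection as a product of eight moves -/
theorem good_T {a : ℝ} (ha : 1 < a) (c : ℝ) : Good a !![1, c; 0, 1] := by
  have ha0 : 0 < a := by linarith
  -- nonexceptional values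
  have key : ∀ l : ℝ, l ≠ 0 →
      Good a !![1, -(l - 1) * (2 * a + 3) * (a - 1) / (a * (a + 1)); 0, 1] := by
    intro l hl
    have e : (!![1, -(l - 1) * (2 * a + 3) * (a - 1) / (a * (a + 1)); 0, 1] :
        Matrix (Fin 2) (Fin 2) ℝ) =
        Lm a l * (Rm a ((a + 2) / (2 * (a + 1))) * (Lm a (1 + a) * (Rm a (1 + a) *
          (Lm a l⁻¹ * (Rm a (1 + a)⁻¹ * (Lm a (1 + a)⁻¹ *
            Rm a ((a + 2) / (2 * (a + 1)))⁻¹)))))) := by
      have h1 : a + 1 ≠ 0 := by linarith
      have h1' : 1 + a ≠ 0 := by linarith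
      have h2 : a + 2 ≠ 0 := by linarith
      have h3 : a ≠ 0 := ha0.ne'
      simp only [Lm, Rm]
      ext i j
      fin_cases i <;> fin_cases j <;>
        simp [Matrix.mul_apply, Fin.sum_univ_two] <;> field_simp <;> ring
    rw [e]
    have hd1 : (Rm a (1 + a)⁻¹).det ≠ 0 := by rw [Rm_det]; positivity
    have hd2 : (Lm a (1 + a)⁻¹).det ≠ 0 := by rw [Lm_det]; positivity
    have hd3 : (Rm a ((a + 2) / (2 * (a + 1)))⁻¹).det ≠ 0 := by rw [Rm_det]; positivity
    have hd4 : (Lm a l⁻¹).det ≠ 0 := by rw [Lm_det]; positivity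
    have hd5 : (Rm a (1 + a)).det ≠ 0 := by rw [Rm_det]; positivity
    have hd6 : (Lm a (1 + a)).det ≠ 0 := by rw [Lm_det]; positivity
    have hd7 : (Rm a ((a + 2) / (2 * (a + 1)))).det ≠ 0 := by rw [Rm_det]; positivity
    refine good_mul ?_ (good_L ha0 _) (good_mul ?_ (good_R ha0 _) (good_mul ?_ (good_L ha0 _)
      (good_mul ?_ (good_R ha0 _) (good_mul ?_ (good_L ha0 _) (good_mul ?_ (good_R ha0 _)
        (good_mul hd3 (good_L ha0 _) (good_R ha0 _)))))))
    all_goals
      simp only [Matrix.det_mul]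
      simp only [ne_eq, mul_eq_zero, not_or]
      simp only [ne_eq] at hd1 hd2 hd3 hd4 hd5 hd6 hd7
      tauto
  have hK : (2 * a + 3) * (a - 1) / (a * (a + 1)) ≠ 0 := by
    have : 0 < a - 1 := by linarith
    positivity
  -- half of `c`, unless exceptional, or a third
  have key2 : ∀ c : ℝ, c ≠ (2 * a + 3) * (a - 1) / (a * (a + 1)) → Good a !![1, c; 0, 1] := by
    intro c hc
    have h := key (1 - c / ((2 * a + 3) * (a - 1) / (a * (a + 1)))) ?_
    · have e : -(1 - c / ((2 * a + 3) * (a - 1) / (a * (a + 1))) - 1) * (2 * a + 3) * (a - 1) /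
          (a * (a + 1)) = c := by
        have : -(1 - c / ((2 * a + 3) * (a - 1) / (a * (a + 1))) - 1) * (2 * a + 3) * (a - 1) /
          (a * (a + 1)) = (c / ((2 * a + 3) * (a - 1) / (a * (a + 1)))) *
            ((2 * a + 3) * (a - 1) / (a * (a + 1))) := by ring
        rw [this, div_mul_cancel₀ _ hK]
      rw [e] at h
      exact h
    · intro h0
      apply hc
      have : c / ((2 * a + 3) * (a - 1) / (a * (a + 1))) = 1 := by linarith
      rwa [div_eq_one_iff_eq hK] at this
  by_cases hc : c = (2 * a + 3) * (a - 1) / (a * (a + 1))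
  · have h1 := key2 (c / 2) (by
      intro h
      have h2 : c / 2 = c := by rw [h]; exact hc.symm
      have h3 : c = 0 := by linarith
      exact hK (hc ▸ h3))
    have h2 := good_mul (by simp [Matrix.det_fin_two]) h1 h1
    convert h2 using 1
    ext i j
    fin_cases i <;> fin_cases j <;> simp [Matrix.mul_apply, Fin.sum_univ_two]
  · exact key2 c hc

/-- interchanging the two vertices -/
theorem good_swap {a : ℝ} {M : Matrix (Fin 2) (Fin 2) ℝ} (h : Good a M) :
    Good a !![M 1 1, M 1 0; M 0 1, M 0 0] := by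
  intro x hx
  have hx' : dt (x.swap).1 (x.swap).2 ≠ 0 := by
    simp only [dt, Prod.fst_swap, Prod.snd_swap] at hx ⊢
    intro h0
    apply hx
    linarith
  have h1 := h x.swap hx'
  have h2 : Relation.ReflTransGen (Step a) x.swap.swap (act M x.swap).swap := by
    refine Relation.ReflTransGen.lift (r := Step a) (p := Step a) Prod.swap ?_ _ _ h1
    rintro y z ⟨hy, hyz⟩
    refine ⟨?_, ?_⟩
    · simp only [dt, Prod.fst_swap, Prod.snd_swap] at hy ⊢
      intro h0
      apply hy
      linarith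
    · rcases hyz with ⟨s, rfl⟩ | ⟨s, rfl⟩
      · exact Or.inr ⟨s, rfl⟩
      · exact Or.inl ⟨s, rfl⟩
  rw [Prod.swap_swap] at h2
  convert h2 using 1
  simp only [act]
  ext
  · simp; ring
  · simp; ring

theorem good_diag {a : ℝ} (ha : 1 < a) (l : ℝ) (hl : l ≠ 0) : Good a !![l, 0; 0, 1] := by
  have ha0 : 0 < a := by linarith
  have h := good_mul (A := !![1, (l - 1) / a; 0, 1]) (B := Lm a l) (a := a)
  have h1 := h (by rw [Lm_det]; exact hl) (good_T ha _) (good_L ha0 l)
  convert h1 using 1
  ext i j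
  fin_cases i <;> fin_cases j <;> simp [Matrix.mul_apply, Fin.sum_univ_two, Lm]
  ring

theorem good_all {a : ℝ} (ha : 1 < a) (M : Matrix (Fin 2) (Fin 2) ℝ) (hM : M.det ≠ 0) :
    Good a M := by
  refine Matrix.diagonal_transvection_induction_of_det_ne_zero (Good a) M hM ?_ ?_ ?_
  · intro D hD
    rw [Matrix.det_diagonal, Fin.prod_univ_two] at hD
    have h0 : D 0 ≠ 0 := left_ne_zero_of_mul hD
    have h1 : D 1 ≠ 0 := right_ne_zero_of_mul hD
    have e1 := good_diag ha (D 0) h0
    have e2 := good_swap (good_diag ha (D 1) h1)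
    have e3 := good_mul (by simp [Matrix.det_fin_two, h1]) e1 e2
    convert e3 using 1
    ext i j
    fin_cases i <;> fin_cases j <;> simp [Matrix.mul_apply, Fin.sum_univ_two]
  · rintro ⟨i, j, hij, c⟩
    fin_cases i <;> fin_cases j
    · exact absurd rfl hij
    · convert good_T ha c using 1
      ext i j
      fin_cases i <;> fin_cases j <;>
        simp [Matrix.TransvectionStruct.toMatrix, Matrix.transvection, Matrix.single]
    · convert good_swap (good_T ha c) using 1
      ext i j
      fin_cases i <;> fin_cases j <;>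
        simp [Matrix.TransvectionStruct.toMatrix, Matrix.transvection, Matrix.single]
    · exact absurd rfl hij
  · intro A B _ hB h1 h2
    exact good_mul hB h1 h2

/-- two vertices can be moved to all positions which are not collinear with `K = 0` -/
theorem pair_reach {a : ℝ} (ha : 1 < a) (x y : ℂ × ℂ) (hx : dt x.1 x.2 ≠ 0)
    (hy : dt y.1 y.2 ≠ 0) : Relation.ReflTransGen (Step a) x y := by
  let M : Matrix (Fin 2) (Fin 2) ℝ :=
    !![dt y.1 x.2 / dt x.1 x.2, dt x.1 y.1 / dt x.1 x.2;
       dt y.2 x.2 / dt x.1 x.2, dt x.1 y.2 / dt x.1 x.2]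
  have hact : act M x = y := by
    have hx' : x.1.re * x.2.im - x.1.im * x.2.re ≠ 0 := hx
    simp only [act, M, Matrix.of_apply, Matrix.cons_val', Matrix.cons_val_zero,
      Matrix.cons_val_one, Matrix.cons_val_fin_one]
    apply Prod.ext
    · apply Complex.ext
      · simp only [Complex.add_re, Complex.re_ofReal_mul, dt]
        rw [div_mul_eq_mul_div, div_mul_eq_mul_div, ← add_div, div_eq_iff hx']
        ring
      · simp only [Complex.add_im, Complex.im_ofReal_mul, dt]
        rw [div_mul_eq_mul_div, div_mul_eq_mul_div, ← add_div, div_eq_iff hx']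
        ring
    · apply Complex.ext
      · simp only [Complex.add_re, Complex.re_ofReal_mul, dt]
        rw [div_mul_eq_mul_div, div_mul_eq_mul_div, ← add_div, div_eq_iff hx']
        ring
      · simp only [Complex.add_im, Complex.im_ofReal_mul, dt]
        rw [div_mul_eq_mul_div, div_mul_eq_mul_div, ← add_div, div_eq_iff hx']
        ring
  have hdet : M.det ≠ 0 := by
    intro h
    have := dt_act M x
    rw [hact, h, zero_mul] at this
    exact hy this
  have := good_all ha M hdet x hx
  rwa [hact] at this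

/-! ### polygons -/

/-- the centroid of the vertices other than `i`, `j` -/
noncomputable def KK {n : ℕ} (v : Fin n → ℂ) (i j : Fin n) : ℂ :=
  ((∑ k, v k) - v i - v j) / (n - 2)

/-- put the vertices `i`, `j` at `K + x.1`, `K + x.2` -/
noncomputable def conf {n : ℕ} (v : Fin n → ℂ) (i j : Fin n) (K : ℂ) (x : ℂ × ℂ) : Fin n → ℂ :=
  Function.update (Function.update v i (K + x.1)) j (K + x.2)

theorem conf_i {n : ℕ} (v : Fin n → ℂ) {i j : Fin n} (hij : i ≠ j) (K : ℂ) (x : ℂ × ℂ) :
    conf v i j K x i = K + x.1 := by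
  simp [conf, hij]

theorem conf_j {n : ℕ} (v : Fin n → ℂ) {i j : Fin n} (K : ℂ) (x : ℂ × ℂ) :
    conf v i j K x j = K + x.2 := by
  simp [conf]

theorem sum_conf {n : ℕ} (v : Fin n → ℂ) {i j : Fin n} (hij : i ≠ j) (K : ℂ) (x : ℂ × ℂ) :
    ∑ k, conf v i j K x k = (∑ k, v k) - v i - v j + (K + x.1) + (K + x.2) := by
  unfold conf
  rw [Finset.sum_update_of_mem (Finset.mem_univ _)]
  have h1 : ∑ k ∈ Finset.univ \ {j}, Function.update v i (K + x.1) k =
      ∑ k, Function.update v i (K + x.1) k - v j := by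
    rw [← Finset.sum_sdiff (Finset.subset_univ ({j} : Finset (Fin n)))]
    simp [Function.update_of_ne hij.symm]
  rw [h1, Finset.sum_update_of_mem (Finset.mem_univ _)]
  have h2 : ∑ k ∈ Finset.univ \ {i}, v k = ∑ k, v k - v i := by
    rw [← Finset.sum_sdiff (Finset.subset_univ ({i} : Finset (Fin n)))]
    simp
  rw [h2]
  ring

theorem centroid_conf {n : ℕ} (hn : 3 ≤ n) (v : Fin n → ℂ) {i j : Fin n} (hij : i ≠ j)
    (x : ℂ × ℂ) : centroid (conf v i j (KK v i j) x) = KK v i j + (x.1 + x.2) / n := by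
  unfold centroid
  rw [sum_conf v hij]
  have h3 : (3 : ℝ) ≤ n := by exact_mod_cast hn
  have h1 : ((n : ℂ) - 2) ≠ 0 := by
    intro h
    have : ((n : ℝ) : ℂ) - (2 : ℝ) = 0 := by exact_mod_cast h
    rw [← Complex.ofReal_sub, Complex.ofReal_eq_zero] at this
    linarith
  have h2 : (n : ℂ) ≠ 0 := by
    have : n ≠ 0 := by omega
    exact_mod_cast this
  unfold KK
  field_simp
  ring

theorem lift_move {n : ℕ} (hn : 3 ≤ n) (v : Fin n → ℂ) {i j : Fin n} (hij : i ≠ j)
    (x y : ℂ × ℂ) (h : Step ((n : ℝ) - 1) x y) :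
    Move (conf v i j (KK v i j) x) (conf v i j (KK v i j) y) := by
  obtain ⟨hx, h⟩ := h
  have h2 : (n : ℂ) ≠ 0 := by
    have : n ≠ 0 := by omega
    exact_mod_cast this
  have hc := centroid_conf hn v hij x
  rcases h with ⟨s, rfl⟩ | ⟨s, rfl⟩
  · refine ⟨i, ?_, -(n * s), ?_⟩
    · rw [conf_i v hij, hc]
      intro he
      have h3 : x.2 = ((n - 1 : ℝ) : ℂ) * x.1 := by
        have h4 : x.1 = (x.1 + x.2) / n := add_left_cancel he
        field_simp at h4
        push_cast
        linear_combination -h4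
      apply hx
      rw [h3]
      simp only [dt, Complex.re_ofReal_mul, Complex.im_ofReal_mul]
      ring
    · rw [conf_i v hij, hc]
      ext k
      unfold conf
      by_cases hki : k = i
      · subst hki
        simp only [Function.update_of_ne hij, Function.update_self]
        push_cast
        field_simp
        ring
      · by_cases hkj : k = j
        · subst hkj
          simp [Function.update_of_ne hki]
        · simp [hki, hkj]
  · refine ⟨j, ?_, -(n * s), ?_⟩
    · rw [conf_j v, hc]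
      intro he
      have h3 : x.1 = ((n - 1 : ℝ) : ℂ) * x.2 := by
        have h4 : x.2 = (x.1 + x.2) / n := add_left_cancel he
        field_simp at h4
        push_cast
        linear_combination -h4
      apply hx
      rw [h3]
      simp only [dt, Complex.re_ofReal_mul, Complex.im_ofReal_mul]
      ring
    · rw [conf_j v, hc]
      ext k
      unfold conf
      by_cases hkj : k = j
      · subst hkj
        simp only [Function.update_self]
        push_cast
        field_simp
        ring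
      · simp [hkj]

/-- moving two vertices -/
theorem pair_move {n : ℕ} (hn : 3 ≤ n) (v : Fin n → ℂ) {i j : Fin n} (hij : i ≠ j)
    (h1 : dt (v i - KK v i j) (v j - KK v i j) ≠ 0) (y : ℂ × ℂ) (hy : dt y.1 y.2 ≠ 0) :
    Relation.ReflTransGen Move v (conf v i j (KK v i j) y) := by
  have ha : 1 < (n : ℝ) - 1 := by
    have : (3 : ℝ) ≤ n := by exact_mod_cast hn
    linarith
  have h := pair_reach ha (v i - KK v i j, v j - KK v i j) y h1 hy
  have h2 := Relation.ReflTransGen.lift (r := Step ((n : ℝ) - 1)) (p := Move)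
    (fun x => conf v i j (KK v i j) x) (fun x y hxy => lift_move hn v hij x y hxy) _ _ h
  have e : conf v i j (KK v i j) (v i - KK v i j, v j - KK v i j) = v := by
    ext k
    unfold conf
    by_cases hkj : k = j
    · subst hkj; simp
    · by_cases hki : k = i
      · subst hki; simp [hkj]
      · simp [hki, hkj]
  change Relation.ReflTransGen Move (conf v i j (KK v i j) (v i - KK v i j, v j - KK v i j)) _ at h2
  rw [e] at h2
  exact h2

theorem dt_KK {n : ℕ} (hn : 3 ≤ n) (v : Fin n → ℂ) (i j : Fin n) :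
    dt (v i - KK v i j) (v j - KK v i j) =
      (n : ℝ) / (n - 2) * dt (v i - centroid v) (v j - centroid v) := by
  have h3 : (3 : ℝ) ≤ n := by exact_mod_cast hn
  have h1 : ((n : ℝ) - 2) ≠ 0 := by linarith
  have h2 : (n : ℝ) ≠ 0 := by linarith
  obtain ⟨S, hS⟩ : ∃ S : ℂ, S = ∑ k, v k := ⟨_, rfl⟩
  have e1 : KK v i j = (((n : ℝ) - 2)⁻¹ : ℝ) * (S - v i - v j) := by
    unfold KK; rw [← hS]; push_cast; rw [div_eq_inv_mul]
  have e2 : centroid v = (((n : ℝ))⁻¹ : ℝ) * S := by
    unfold centroid; rw [← hS]; push_cast; rw [div_eq_inv_mul]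
  rw [e1, e2]
  simp only [dt, Complex.sub_re, Complex.sub_im, Complex.re_ofReal_mul, Complex.im_ofReal_mul]
  field_simp
  ring

/-- a point off two lines -/
theorem exists_off_lines (c d : ℂ) {A B : ℂ} (hA : A ≠ 0) (hB : B ≠ 0) :
    ∃ z : ℂ, dt (z - c) A ≠ 0 ∧ dt (z - d) B ≠ 0 := by
  obtain ⟨h, hhA, hhB⟩ : ∃ h : ℂ, dt h A ≠ 0 ∧ dt h B ≠ 0 := by
    have hA2 : 0 < A.re * A.re + A.im * A.im := by
      have := Complex.normSq_pos.2 hA
      rwa [Complex.normSq_apply] at this
    have hB2 : 0 < B.re * B.re + B.im * B.im := by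
      have := Complex.normSq_pos.2 hB
      rwa [Complex.normSq_apply] at this
    by_cases h0 : dt (Complex.I * A) B = 0
    · refine ⟨Complex.I * A + A, ?_, ?_⟩
      · simp only [dt, Complex.add_re, Complex.add_im, Complex.mul_re, Complex.mul_im,
          Complex.I_re, Complex.I_im]
        intro h
        nlinarith
      · simp only [dt, Complex.add_re, Complex.add_im, Complex.mul_re, Complex.mul_im,
          Complex.I_re, Complex.I_im] at h0 ⊢
        intro h
        have h1 : A.re * B.re + A.im * B.im = 0 := by linarith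
        have h2 : A.re * B.im - A.im * B.re = 0 := by linarith
        have h3 : (A.re * A.re + A.im * A.im) * (B.re * B.re + B.im * B.im) = 0 := by
          have : (A.re * A.re + A.im * A.im) * (B.re * B.re + B.im * B.im) =
            (A.re * B.re + A.im * B.im) ^ 2 + (A.re * B.im - A.im * B.re) ^ 2 := by ring
          rw [this, h1, h2]; ring
        exact (mul_pos hA2 hB2).ne' h3
    · refine ⟨Complex.I * A, ?_, h0⟩
      simp only [dt, Complex.mul_re, Complex.mul_im, Complex.I_re, Complex.I_im]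
      intro h
      nlinarith
  obtain ⟨t, ht⟩ := ((Set.toFinite ({dt c A / dt h A, dt d B / dt h B} : Set ℝ)).infinite_compl).nonempty
  simp only [Set.mem_compl_iff, Set.mem_insert_iff, Set.mem_singleton_iff, not_or] at ht
  refine ⟨t * h, ?_, ?_⟩
  · intro h1
    apply ht.1
    rw [eq_div_iff hhA]
    simp only [dt, Complex.sub_re, Complex.sub_im, Complex.re_ofReal_mul,
      Complex.im_ofReal_mul] at h1 ⊢
    linarith
  · intro h1
    apply ht.2
    rw [eq_div_iff hhB]
    simp only [dt, Complex.sub_re, Complex.sub_im, Complex.re_ofReal_mul,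
      Complex.im_ofReal_mul] at h1 ⊢
    linarith

theorem dt_comm (x y : ℂ) : dt x y = - dt y x := by
  simp only [dt]; ring

/-- nondegenerate pair of vertices -/
def Nd {n : ℕ} (u : Fin n → ℂ) (a b : Fin n) : Prop :=
  dt (u a - KK u a b) (u b - KK u a b) ≠ 0

theorem conf_other {n : ℕ} (v : Fin n → ℂ) {i j k : Fin n} (hi : k ≠ i) (hj : k ≠ j) (K : ℂ)
    (x : ℂ × ℂ) : conf v i j K x k = v k := by
  simp [conf, hi, hj]

/-- bringing one vertex to its place -/
theorem place_one {n : ℕ} (hn : 3 ≤ n) (u : Fin n → ℂ) {a b k : Fin n} (hab : a ≠ b)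
    (hka : k ≠ a) (hkb : k ≠ b) (hu : Nd u a b) (W : ℂ) :
    ∃ u' : Fin n → ℂ, Relation.ReflTransGen Move u u' ∧ Nd u' a b ∧ u' k = W ∧
      ∀ l, l ≠ k → l ≠ a → l ≠ b → u' l = u l := by
  have h3 : (3 : ℝ) ≤ n := by exact_mod_cast hn
  have hN : ((n : ℂ) - 2) ≠ 0 := by
    intro h
    have : ((n : ℝ) : ℂ) - (2 : ℝ) = 0 := by exact_mod_cast h
    rw [← Complex.ofReal_sub, Complex.ofReal_eq_zero] at this
    linarith
  obtain ⟨R, hR⟩ : ∃ R : ℂ, R = (∑ l, u l) - u k - u a - u b := ⟨_, rfl⟩
  have hK1 : KK u a b = (R + u k) / (n - 2) := by unfold KK; rw [hR]; ring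
  obtain ⟨β, hβ⟩ := ((Set.toFinite ({(R + u k) / (n - 2), (R + W) / (n - 2),
    (n - 2) * u k - R, (n - 2) * W - R} : Set ℂ)).infinite_compl).nonempty
  simp only [Set.mem_compl_iff, Set.mem_insert_iff, Set.mem_singleton_iff, not_or] at hβ
  obtain ⟨hβ1, hβ2, hβ3, hβ4⟩ := hβ
  have hk' : u k - (R + β) / (n - 2) ≠ 0 := by
    intro h
    apply hβ3
    have h1 : u k = (R + β) / (n - 2) := sub_eq_zero.1 h
    rw [h1]; field_simp; ring
  have hW' : W - (R + β) / (n - 2) ≠ 0 := by
    intro h
    apply hβ4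
    have h1 : W = (R + β) / (n - 2) := sub_eq_zero.1 h
    rw [h1]; field_simp; ring
  obtain ⟨z1, hz1, hz1'⟩ := exists_off_lines ((R + u k) / (n - 2)) ((R + β) / (n - 2))
    (sub_ne_zero.2 hβ1) hk'
  obtain ⟨z2, hz2, hz2'⟩ := exists_off_lines ((R + W) / (n - 2)) ((R + β) / (n - 2))
    (sub_ne_zero.2 hβ2) hW'
  -- first pair
  obtain ⟨u1, hu1⟩ : ∃ u1, u1 = conf u a b (KK u a b) (z1 - KK u a b, β - KK u a b) := ⟨_, rfl⟩
  have hr1 : Relation.ReflTransGen Move u u1 := by
    rw [hu1]
    refine pair_move hn u hab hu _ ?_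
    rw [hK1]
    exact hz1
  have u1a : u1 a = z1 := by rw [hu1, conf_i u hab]; ring
  have u1b : u1 b = β := by rw [hu1, conf_j u]; ring
  have u1o : ∀ l, l ≠ a → l ≠ b → u1 l = u l := fun l h1 h2 => by
    rw [hu1, conf_other u h1 h2]
  have u1s : ∑ l, u1 l = R + u k + z1 + β := by
    rw [hu1, sum_conf u hab, hR]; ring
  have hK2 : KK u1 k a = (R + β) / (n - 2) := by
    unfold KK; rw [u1s, u1o k hka hkb, u1a]; ring
  -- second pair
  obtain ⟨u2, hu2⟩ : ∃ u2, u2 = conf u1 k a (KK u1 k a) (W - KK u1 k a, z2 - KK u1 k a) :=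
    ⟨_, rfl⟩
  have hr2 : Relation.ReflTransGen Move u1 u2 := by
    rw [hu2]
    refine pair_move hn u1 hka ?_ _ ?_
    · rw [hK2, u1a, u1o k hka hkb, dt_comm]
      exact neg_ne_zero.2 hz1'
    · rw [hK2, dt_comm]
      exact neg_ne_zero.2 hz2'
  have u2k : u2 k = W := by rw [hu2, conf_i u1 hka]; ring
  have u2a : u2 a = z2 := by rw [hu2, conf_j u1]; ring
  have u2o : ∀ l, l ≠ k → l ≠ a → u2 l = u1 l := fun l h1 h2 => by
    rw [hu2, conf_other u1 h1 h2]
  have u2s : ∑ l, u2 l = R + W + z2 + β := by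
    rw [hu2, sum_conf u1 hka, u1s, u1a, u1o k hka hkb]; ring
  have u2b : u2 b = β := by rw [u2o b hkb.symm hab.symm, u1b]
  have hK3 : KK u2 a b = (R + W) / (n - 2) := by
    unfold KK; rw [u2s, u2a, u2b]; ring
  refine ⟨u2, hr1.trans hr2, ?_, u2k, ?_⟩
  · unfold Nd
    rw [hK3, u2a, u2b]
    exact hz2
  · intro l h1 h2 h4
    rw [u2o l h1 h2, u1o l h2 h4]

/-- bringing all vertices to their places -/
theorem place_all {n : ℕ} (hn : 3 ≤ n) (v w : Fin n → ℂ) {a b : Fin n} (hab : a ≠ b)
    (hv : Nd v a b) (hw : Nd w a b) : Relation.ReflTransGen Move v w := by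
  have key : ∀ S : Finset (Fin n), a ∉ S → b ∉ S → ∃ u : Fin n → ℂ,
      Relation.ReflTransGen Move v u ∧ Nd u a b ∧ ∀ k ∈ S, u k = w k := by
    intro S
    induction S using Finset.induction_on with
    | empty => exact fun _ _ => ⟨v, Relation.ReflTransGen.refl, hv, by simp⟩
    | insert k S hk ih =>
      intro ha hb
      simp only [Finset.mem_insert, not_or] at ha hb
      obtain ⟨u, h1, h2, h3⟩ := ih ha.2 hb.2
      obtain ⟨u', h4, h5, h6, h7⟩ := place_one hn u hab (Ne.symm ha.1) (Ne.symm hb.1) h2 (w k)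
      refine ⟨u', h1.trans h4, h5, ?_⟩
      intro l hl
      rcases Finset.mem_insert.1 hl with rfl | hl
      · exact h6
      · rw [h7 l (fun h => hk (h ▸ hl)) (fun h => ha.2 (h ▸ hl)) (fun h => hb.2 (h ▸ hl)), h3 l hl]
  obtain ⟨u, h1, h2, h3⟩ := key (Finset.univ \ {a, b}) (by simp) (by simp)
  have h3' : ∀ k, k ≠ a → k ≠ b → u k = w k := fun k hka hkb => h3 k (by simp [hka, hkb])
  have hs : (∑ k, u k) - u a - u b = (∑ k, w k) - w a - w b := by
    have e : ∀ f : Fin n → ℂ, (∑ k, f k) - f a - f b = ∑ k ∈ Finset.univ \ {a, b}, f k := by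
      intro f
      rw [← Finset.sum_sdiff (Finset.subset_univ ({a, b} : Finset (Fin n))),
        Finset.sum_pair hab]
      ring
    rw [e, e]
    exact Finset.sum_congr rfl fun k hk => h3 k hk
  have hK : KK u a b = KK w a b := by unfold KK; rw [hs]
  have h4 := pair_move hn u hab h2 (w a - KK w a b, w b - KK w a b) hw
  have e : conf u a b (KK u a b) (w a - KK w a b, w b - KK w a b) = w := by
    rw [hK]
    ext k
    by_cases hka : k = a
    · subst hka; rw [conf_i u hab]; ring
    · by_cases hkb : k = b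
      · subst hkb; rw [conf_j u]; ring
      · rw [conf_other u hka hkb, h3' k hka hkb]
  rw [e] at h4
  exact h1.trans h4

/-! ### regular polygons -/

theorem dt_mul_self (x z : ℂ) : dt x (x * z) = Complex.normSq x * z.im := by
  simp only [dt, Complex.mul_re, Complex.mul_im, Complex.normSq_apply]
  ring

theorem nd_root {n : ℕ} (hn : 3 ≤ n) {ζ : ℂ} (hζ : IsPrimitiveRoot ζ n) (him : ζ.im ≠ 0)
    {c r : ℂ} (hr : r ≠ 0) {w : Fin n → ℂ} (hw : ∀ k : Fin n, w k = c + r * ζ ^ (k : ℕ))
    (t : Fin n) : Nd w t (finRotate n t) := by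
  obtain ⟨m, rfl⟩ : ∃ m, n = m + 1 := ⟨n - 1, by omega⟩
  have hn0 : ((m + 1 : ℕ) : ℂ) ≠ 0 := by
    exact_mod_cast Nat.succ_ne_zero m
  have hcen : centroid w = c := by
    unfold centroid
    have : ∑ k, w k = (m + 1 : ℕ) * c := by
      simp only [hw, Finset.sum_add_distrib, Finset.sum_const, Finset.card_univ,
        Fintype.card_fin, nsmul_eq_mul]
      rw [← Finset.mul_sum, Fin.sum_univ_eq_sum_range (fun i => ζ ^ i),
        hζ.geom_sum_eq_zero (by omega)]
      ring
    rw [this]
    field_simp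
  have hz0 : ζ ≠ 0 := hζ.ne_zero (by omega)
  have hpow : ζ ^ ((finRotate (m + 1) t : Fin (m + 1)) : ℕ) = ζ ^ (t : ℕ) * ζ := by
    rcases Nat.lt_or_ge (t : ℕ) m with ht | ht
    · rw [finRotate_apply, Fin.val_add_one_of_lt (by
        rw [Fin.lt_def]; simpa using ht), pow_succ]
    · have : t = Fin.last m := by
        ext
        have := t.2
        simp only [Fin.val_last]
        omega
      subst this
      rw [finRotate_last, ← pow_succ, Fin.val_last, hζ.pow_eq_one]
      simp
  unfold Nd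
  rw [dt_KK hn, hcen, hw, hw, hpow]
  have e1 : c + r * ζ ^ (t : ℕ) - c = r * ζ ^ (t : ℕ) := by ring
  have e2 : c + r * (ζ ^ (t : ℕ) * ζ) - c = r * ζ ^ (t : ℕ) * ζ := by ring
  rw [e1, e2, dt_mul_self]
  have h3 : (3 : ℝ) ≤ ((m + 1 : ℕ) : ℝ) := by exact_mod_cast hn
  refine mul_ne_zero ?_ (mul_ne_zero ?_ him)
  · refine div_ne_zero ?_ ?_
    · linarith
    · linarith
  · exact (Complex.normSq_pos.2 (mul_ne_zero hr (pow_ne_zero _ hz0))).ne'

theorem nd_regular {n : ℕ} (hn : 3 ≤ n) {w : Fin n → ℂ} (hw : IsRegular w) (t : Fin n) :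
    Nd w t (finRotate n t) := by
  obtain ⟨c, r, hr, h⟩ := hw
  have h3 : (3 : ℝ) ≤ n := by exact_mod_cast hn
  have hprim : IsPrimitiveRoot (Complex.exp (2 * Real.pi * Complex.I / n)) n :=
    Complex.isPrimitiveRoot_exp n (by omega)
  have him : (Complex.exp (2 * Real.pi * Complex.I / n)).im = Real.sin (2 * Real.pi / n) := by
    have : (2 * Real.pi * Complex.I / n : ℂ) = ((2 * Real.pi / n : ℝ) : ℂ) * Complex.I := by
      push_cast; ring
    rw [this, Complex.exp_ofReal_mul_I_im]
  have hsin : 0 < Real.sin (2 * Real.pi / n) := by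
    apply Real.sin_pos_of_pos_of_lt_pi
    · positivity
    · rw [div_lt_iff₀ (by linarith)]
      nlinarith [Real.pi_pos]
  rcases h with h | h
  · refine nd_root hn hprim (by rw [him]; exact hsin.ne') (c := c) hr (fun k => ?_) t
    rw [h k, ← Complex.exp_nat_mul]
    congr 3
    ring
  · refine nd_root hn hprim.inv (ζ := (Complex.exp (2 * Real.pi * Complex.I / n))⁻¹) ?_ (c := c) hr
      (fun k => ?_) t
    · rw [← Complex.exp_neg]
      have : (-(2 * Real.pi * Complex.I / n) : ℂ) = ((-(2 * Real.pi / n) : ℝ) : ℂ) * Complex.I := by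
        push_cast; ring
      rw [this, Complex.exp_ofReal_mul_I_im, Real.sin_neg]
      exact neg_ne_zero.2 hsin.ne'
    · rw [h k, ← Complex.exp_neg, ← Complex.exp_nat_mul]
      congr 3
      ring

/-! ### simple polygons -/

theorem parallel_of_dt {x y : ℂ} (hx : x ≠ 0) (h : dt x y = 0) : ∃ s : ℝ, y = s * x := by
  have hx2 : 0 < x.re * x.re + x.im * x.im := by
    have := Complex.normSq_pos.2 hx
    rwa [Complex.normSq_apply] at this
  refine ⟨(x.re * y.re + x.im * y.im) / (x.re * x.re + x.im * x.im), ?_⟩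
  simp only [dt] at h
  apply Complex.ext
  · rw [Complex.re_ofReal_mul, div_mul_eq_mul_div, eq_div_iff hx2.ne']
    linear_combination (-x.im) * h
  · rw [Complex.im_ofReal_mul, div_mul_eq_mul_div, eq_div_iff hx2.ne']
    linear_combination x.re * h

open Fin.CommRing Fin.NatCast in
theorem nd_simple {n : ℕ} (hn : 3 ≤ n) {v : Fin n → ℂ} (hv : IsSimple v) :
    ∃ t : Fin n, Nd v t (finRotate n t) := by
  obtain ⟨m, rfl⟩ : ∃ m, n = m + 3 := ⟨n - 3, by omega⟩
  obtain ⟨hinj, hsim⟩ := hv
  by_contra hcon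
  push Not at hcon
  obtain ⟨c, hc⟩ : ∃ c, c = centroid v := ⟨_, rfl⟩
  have h3 : (3 : ℝ) ≤ ((m + 3 : ℕ) : ℝ) := by exact_mod_cast hn
  have hdt : ∀ t : Fin (m + 3), dt (v t - c) (v (t + 1) - c) = 0 := by
    intro t
    have h1 := hcon t
    unfold Nd at h1
    rw [not_not, dt_KK hn, finRotate_apply, mul_eq_zero] at h1
    rcases h1 with h1 | h1
    · exfalso
      have : (0 : ℝ) < ((m + 3 : ℕ) : ℝ) / (((m + 3 : ℕ) : ℝ) - 2) := by
        apply div_pos <;> linarith
      exact this.ne' h1
    · rw [hc]; exact h1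
  -- the only possible vertex at the centroid
  obtain ⟨t0, ht0⟩ : ∃ t0 : Fin (m + 3), ∀ t, t ≠ t0 → v t - c ≠ 0 := by
    by_cases h : ∃ t0, v t0 = c
    · obtain ⟨t0, h0⟩ := h
      refine ⟨t0, fun t ht h1 => ht (hinj ?_)⟩
      rw [h0]; exact sub_eq_zero.1 h1
    · push Not at h
      exact ⟨0, fun t _ => sub_ne_zero.2 (h t)⟩
  have hd : v (t0 + 1) - c ≠ 0 := ht0 _ (by simp)
  have hpar : ∀ k : ℕ, k < m + 2 → ∃ s : ℝ, v (t0 + 1 + (k : Fin (m + 3))) - c =
      s * (v (t0 + 1) - c) := by
    intro k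
    induction k with
    | zero => exact fun _ => ⟨1, by simp⟩
    | succ k ih =>
      intro hk
      obtain ⟨s, hs⟩ := ih (by omega)
      have hne : v (t0 + 1 + (k : Fin (m + 3))) - c ≠ 0 := by
        apply ht0
        intro h
        have h1 : (1 : Fin (m + 3)) + (k : Fin (m + 3)) = 0 := by
          have : t0 + (1 + (k : Fin (m + 3))) = t0 + 0 := by rw [← add_assoc, h, add_zero]
          exact add_left_cancel this
        have h2 : ((1 + k : ℕ) : Fin (m + 3)) = 0 := by push_cast; exact h1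
        rw [Fin.natCast_eq_zero] at h2
        have := Nat.le_of_dvd (by omega) h2
        omega
      obtain ⟨s', hs'⟩ := parallel_of_dt hne (hdt _)
      refine ⟨s' * s, ?_⟩
      rw [hs] at hs'
      have : t0 + 1 + ((k + 1 : ℕ) : Fin (m + 3)) = t0 + 1 + (k : Fin (m + 3)) + 1 := by
        push_cast; ring
      rw [this, hs']
      push_cast; ring
  have hall : ∀ t : Fin (m + 3), ∃ s : ℝ, v t = c + s * (v (t0 + 1) - c) := by
    intro t
    by_cases ht : t = t0
    · subst ht
      have h1 := hdt t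
      rw [dt_comm, neg_eq_zero] at h1
      obtain ⟨s, hs⟩ := parallel_of_dt hd h1
      exact ⟨s, by rw [← hs]; ring⟩
    · obtain ⟨s, hs⟩ := hpar ((t - (t0 + 1) : Fin (m + 3)) : ℕ) (by
        have h1 := (t - (t0 + 1)).2
        by_contra h2
        have h3 : ((t - (t0 + 1) : Fin (m + 3)) : ℕ) = m + 2 := by omega
        have h4 : t - (t0 + 1) = -1 := by
          have h5 : t - (t0 + 1) = ((m + 2 : ℕ) : Fin (m + 3)) := by
            rw [← h3]; simp
          rw [h5, eq_neg_iff_add_eq_zero]
          have : ((m + 2 : ℕ) : Fin (m + 3)) + 1 = ((m + 3 : ℕ) : Fin (m + 3)) := by push_cast; ring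
          rw [this, Fin.natCast_self]
        apply ht
        have : t = (t - (t0 + 1)) + (t0 + 1) := by ring
        rw [this, h4]; ring)
      rw [Fin.cast_val_eq_self] at hs
      have e : t0 + 1 + (t - (t0 + 1)) = t := by ring
      rw [e] at hs
      exact ⟨s, by rw [← hs]; ring⟩
  choose x hx using hall
  have hxinj : Function.Injective x := by
    intro s t h
    apply hinj
    rw [hx s, hx t, h]
  -- the leftmost vertex
  obtain ⟨i, hi⟩ := Finite.exists_min x
  have hlt : ∀ t, t ≠ i → x i < x t := fun t ht =>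
    lt_of_le_of_ne (hi t) fun h => ht (hxinj h).symm
  have hseg : ∀ s t u : Fin (m + 3), x s < x t → x t < x u → v t ∈ segment ℝ (v s) (v u) := by
    intro s t u h1 h2
    rw [segment_eq_image']
    refine ⟨(x t - x s) / (x u - x s), ⟨?_, ?_⟩, ?_⟩
    · apply div_nonneg <;> linarith
    · rw [div_le_one (by linarith)]; linarith
    · simp only
      rw [hx s, hx t, hx u]
      have h4 : ((x u : ℂ) - x s) ≠ 0 := by
        rw [← Complex.ofReal_sub]
        exact Complex.ofReal_ne_zero.2 (by linarith)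
      rw [Complex.real_smul]
      push_cast
      field_simp
      ring
  have e1 : i + 1 ≠ i := by simp
  have e2 : i - 1 ≠ i := by simp
  have e3 : i + 1 ≠ i - 1 := by
    intro h
    have h1 : (1 : Fin (m + 3)) + 1 = 0 := by
      have : i + 1 + 1 = i + 0 := by rw [h]; ring
      rw [add_assoc] at this
      exact add_left_cancel this
    have h2 : ((2 : ℕ) : Fin (m + 3)) = 0 := by
      push_cast
      rw [← h1]; norm_num
    rw [Fin.natCast_eq_zero] at h2
    have := Nat.le_of_dvd (by omega) h2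
    omega
  rcases lt_or_gt_of_ne (fun h => e3 (hxinj h) : x (i + 1) ≠ x (i - 1)) with h | h
  · -- `v (i+1)` lies on the edge from `i - 1` to `i`
    have h1 := hsim i (i - 1) e2.symm (v (i + 1)) ⟨by
      rw [finRotate_apply]; exact right_mem_segment _ _ _, by
      rw [finRotate_apply, sub_add_cancel, segment_symm]
      exact hseg _ _ _ (hlt _ e1) h⟩
    rcases h1.2 with h2 | h2
    · exact e3 (hinj h2)
    · rw [finRotate_apply, sub_add_cancel] at h2
      exact e1 (hinj h2)
  · have h1 := hsim i (i - 1) e2.symm (v (i - 1)) ⟨by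
      rw [finRotate_apply]; exact hseg _ _ _ (hlt _ e2) h, left_mem_segment _ _ _⟩
    rcases h1.1 with h2 | h2
    · exact e2 (hinj h2)
    · rw [finRotate_apply] at h2
      exact e3 (hinj h2).symm

/-- **Theorem.** For every `n ≥ 3`, every simple polygon with `n` vertices can be carried to every
regular `n`-gon (any centre, size, position and orientation) by a finite sequence of
vertex-centroid moves. -/
theorem result : ∀ n : ℕ, 3 ≤ n → ∀ v : Fin n → ℂ, IsSimple v → ∀ w : Fin n → ℂ, IsRegular w →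
    Relation.ReflTransGen Move v w := by
  intro n hn v hv w hw
  obtain ⟨t, ht⟩ := nd_simple hn hv
  have hne : t ≠ finRotate n t := by
    intro h
    apply ht
    rw [← h]
    simp only [dt]
    ring
  exact place_all hn v w hne ht (nd_regular hn hw t)

end Pool.Agent.Results.MP_06c496_co.ReachRegular
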